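import Pool.Agent.FB.Iface

/-!
MP_15d50e, block PSI1: elementary facts on the lattice, the character and the sets `US`, `ES`.
-/

open Complex Set
open scoped ComplexConjugate Real

namespace FB.P1

theorem lp_zero : lp 0 = 0 := by simp [lp]

theorem lp_neg (p : ℤ × ℤ) : lp (-p) = -lp p := by simp [lp]; ring

theorem lp_add (p q : ℤ × ℤ) : lp (p + q) = lp p + lp q := by simp [lp]; ring

theorem lp_sub (p q : ℤ × ℤ) : lp (p - q) = lp p - lp q := by simp [lp]; ring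

theorem lp_conj (p : ℤ × ℤ) : conj (lp p) = lp (p.1, -p.2) := by simp [lp]; try ring

theorem lp_I_mul (p : ℤ × ℤ) : I * lp p = lp (-p.2, p.1) := by
  simp only [lp]
  push_cast
  have : I * ((p.2 : ℂ) * I) = -(p.2 : ℂ) := by rw [mul_left_comm, I_mul_I]; ring
  rw [mul_add, this]; ring

/-- a nonzero lattice point has norm at least `1` -/
theorem one_le_norm_lp {p : ℤ × ℤ} (h0 : p ≠ 0) : 1 ≤ ‖lp p‖ := by
  obtain ⟨a, b⟩ := p
  have h1 : ‖lp (a, b)‖ ^ 2 = (a : ℝ) ^ 2 + (b : ℝ) ^ 2 := by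
    rw [← Complex.normSq_eq_norm_sq, Complex.normSq_apply]
    simp [lp]; ring
  have h2 : (1 : ℤ) ≤ a ^ 2 + b ^ 2 := by
    by_contra hcon
    have ha : a = 0 := by nlinarith [sq_nonneg a, sq_nonneg b]
    have hb : b = 0 := by nlinarith [sq_nonneg a, sq_nonneg b]
    exact h0 (by simp [ha, hb])
  have h3 : (1 : ℝ) ≤ (a : ℝ) ^ 2 + (b : ℝ) ^ 2 := by exact_mod_cast h2
  nlinarith [norm_nonneg (lp (a, b))]

theorem mem_US_of_norm78 {z : ℂ} {s : ℝ} (hs : s < 1 / 8) (h0 : s < ‖z‖) (h1 : ‖z‖ ≤ 7 / 8) :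
    z ∈ US s := by
  intro p
  rcases eq_or_ne p 0 with rfl | hp0
  · simpa [lp_zero] using h0
  · have := one_le_norm_lp hp0
    have h2 : ‖lp p‖ ≤ ‖z - lp p‖ + ‖z‖ := by
      calc ‖lp p‖ = ‖z - (z - lp p)‖ := by ring_nf
        _ ≤ ‖z‖ + ‖z - lp p‖ := norm_sub_le _ _
        _ = _ := by ring
    linarith

theorem US_mono {s s' : ℝ} (h : s ≤ s') : US s' ⊆ US s := fun _ hx p => lt_of_le_of_lt h (hx p)

theorem US_neg {s : ℝ} {z : ℂ} (hz : z ∈ US s) : -z ∈ US s := by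
  intro p
  have := hz (-p)
  rw [lp_neg] at this
  rwa [← norm_neg, show -(-z - lp p) = z - -lp p by ring]

theorem US_add {s : ℝ} {z : ℂ} (hz : z ∈ US s) (p : ℤ × ℤ) : z + lp p ∈ US s := by
  intro q
  have := hz (q - p)
  rwa [lp_sub, show z - (lp q - lp p) = z + lp p - lp q by ring] at this

theorem US_conj {s : ℝ} {z : ℂ} (hz : z ∈ US s) : conj z ∈ US s := by
  intro p
  have := hz (p.1, -p.2)
  rwa [← Complex.norm_conj, map_sub, lp_conj, neg_neg] at this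

theorem US_I_mul {s : ℝ} {z : ℂ} (hz : z ∈ US s) : I * z ∈ US s := by
  intro p
  have h := hz (-(-p.2, p.1))
  have : I * z - lp p = I * (z - lp (-(-p.2, p.1))) := by
    rw [lp_neg, ← lp_I_mul, sub_neg_eq_add, mul_add, ← mul_assoc I I, I_mul_I]; ring
  rwa [this, norm_mul, Complex.norm_I, one_mul]

/-- membership in `US s` is an open condition in `s` -/
theorem exists_US_gt {s : ℝ} {x : ℂ} (hx : x ∈ US s) : ∃ s' : ℝ, s < s' ∧ x ∈ US s' := by
  obtain ⟨M, hM⟩ := exists_nat_gt (‖x‖ + |s| + 1)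
  let T : Finset (ℤ × ℤ) := (Finset.Icc (-(M : ℤ)) M) ×ˢ (Finset.Icc (-(M : ℤ)) M)
  have hT : ∀ p : ℤ × ℤ, p ∉ T → ‖x‖ + |s| + 1 < ‖lp p‖ := by
    intro p hpT
    obtain ⟨a, b⟩ := p
    have hab : ¬ (|a| ≤ M ∧ |b| ≤ M) := by
      rintro ⟨h1, h2⟩
      apply hpT
      simp only [T, Finset.mem_product, Finset.mem_Icc]
      exact ⟨abs_le.1 h1, abs_le.1 h2⟩
    have h1 : (M : ℝ) < ‖lp (a, b)‖ := by
      by_cases ha : |a| ≤ M
      · have hb : (M : ℤ) < |b| := not_le.1 fun h => hab ⟨ha, h⟩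
        have h2 := Complex.abs_im_le_norm (lp (a, b))
        simp [lp] at h2
        have h3 : (M : ℝ) < |(b : ℝ)| := by exact_mod_cast hb
        simp only [lp]
        linarith
      · have ha' : (M : ℤ) < |a| := not_le.1 ha
        have h2 := Complex.abs_re_le_norm (lp (a, b))
        simp [lp] at h2
        have h3 : (M : ℝ) < |(a : ℝ)| := by exact_mod_cast ha'
        simp only [lp]
        linarith
    linarith
  have hfin : ∀ (T' : Finset (ℤ × ℤ)), ∃ e > 0, ∀ p ∈ T', s + e < ‖x - lp p‖ := by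
    intro T'
    induction T' using Finset.induction_on with
    | empty => exact ⟨1, one_pos, by simp⟩
    | insert p T' _ ih =>
      obtain ⟨e, he, h⟩ := ih
      have hp := hx p
      refine ⟨min e ((‖x - lp p‖ - s) / 2), lt_min he (by linarith), ?_⟩
      intro q hq
      rcases Finset.mem_insert.1 hq with rfl | hq
      · linarith [min_le_right e ((‖x - lp q‖ - s) / 2)]
      · linarith [min_le_left e ((‖x - lp p‖ - s) / 2), h q hq]
  obtain ⟨e, he, hT2⟩ := hfin T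
  refine ⟨s + min e (1 / 2), by linarith [lt_min he (by norm_num : (0 : ℝ) < 1 / 2)], ?_⟩
  intro p
  by_cases hpT : p ∈ T
  · have := hT2 p hpT
    linarith [min_le_left e (1 / 2)]
  · have h1 := hT p hpT
    have h2 : ‖lp p‖ ≤ ‖x - lp p‖ + ‖x‖ := by
      calc ‖lp p‖ = ‖x - (x - lp p)‖ := by ring_nf
        _ ≤ ‖x‖ + ‖x - lp p‖ := norm_sub_le _ _
        _ = _ := by ring
    linarith [min_le_right e (1 / 2), le_abs_self s]

theorem isOpen_US (s : ℝ) : IsOpen (US s) := by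
  rw [Metric.isOpen_iff]
  intro x hx
  obtain ⟨s', hs, hx'⟩ := exists_US_gt hx
  refine ⟨s' - s, by linarith, ?_⟩
  intro y hy p
  rw [Metric.mem_ball, dist_eq_norm] at hy
  have h1 := hx' p
  have h2 : ‖x - lp p‖ ≤ ‖y - lp p‖ + ‖y - x‖ := by
    calc ‖x - lp p‖ = ‖(y - lp p) - (y - x)‖ := by ring_nf
      _ ≤ _ := norm_sub_le _ _
  linarith

theorem norm_chi (κ : ℂ) (p : ℤ × ℤ) : ‖chi κ p‖ = 1 := by
  rw [chi, Complex.norm_exp_ofReal_mul_I]

theorem chi_neg (κ : ℂ) (p : ℤ × ℤ) : chi κ (-p) = conj (chi κ p) := by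
  rw [chi, chi, ← Complex.exp_conj]
  congr 1
  simp
  ring

/-- reduction to the unit cell -/
theorem exists_cell (z : ℂ) : ∃ p : ℤ × ℤ, ‖(z - lp p).re‖ ≤ 1 / 2 ∧ ‖(z - lp p).im‖ ≤ 1 / 2 := by
  refine ⟨(round z.re, round z.im), ?_, ?_⟩
  · have := abs_sub_round z.re
    simpa [lp, Real.norm_eq_abs] using this
  · have := abs_sub_round z.im
    simpa [lp, Real.norm_eq_abs] using this

/-- the growth bound of `IsLat`, extended to the whole set `US s` -/
theorem growth_US {κ : ℂ} {E : ℕ → ℂ} {γ : ℝ} {M : ℕ → ℂ → ℂ} {G : ℂ → ℂ}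
    (h : IsLat κ E γ M G) : ∃ C : ℝ, 0 ≤ C ∧ ∀ s : ℝ, 0 < s → s ≤ 1 / 4 → ∀ n : ℕ, 1 ≤ n →
      ∀ z ∈ US s, ‖M n z‖ ≤ C * (s ^ n)⁻¹ * n := by
  obtain ⟨C, hC⟩ := h.growth
  refine ⟨max C 0, le_max_right _ _, ?_⟩
  intro s hs hs4 n hn z hz
  obtain ⟨p, h1, h2⟩ := exists_cell z
  have hz' : z - lp p ∈ US s := by
    have := US_add hz (-p)
    rwa [lp_neg, ← sub_eq_add_neg] at this
  have h3 := hC s hs hs4 n hn (z - lp p) hz' h1 h2
  have h4 := h.bloch n hn (z - lp p) (US_mono hs.le hz') p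
  rw [sub_add_cancel] at h4
  rw [h4, norm_mul, norm_chi, one_mul]
  refine h3.trans ?_
  gcongr
  exact le_max_left _ _

end FB.P1
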