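import Pool.Agent.FB.Psi1.Local

/-!
MP_15d50e, block PSI1: `A(z) = sum d_m z^-(m+1) + sum_n Hc n z^n` and the same for `z A'(z)`.
-/

open Complex Set
open scoped ComplexConjugate Real

namespace FB.P1

section

variable {κ : ℂ} {E : ℕ → ℂ} {γ : ℝ} {M : ℕ → ℂ → ℂ} {G : ℂ → ℂ} {t : ℝ} {b : ℕ → ℂ}

/-- the principal parts are summable, also with the factor `m+1` -/
theorem summable_princ' (ht : 0 < t) (hb : Summable (fun n : ℕ => 2 ^ n * ‖b n‖)) {z : ℂ}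
    (hz : t / 2 < ‖z‖) :
    Summable (fun m : ℕ => ((m : ℂ) + 1) * (dC t b m * (z ^ (m + 1))⁻¹)) := by
  have hz0 : 0 < ‖z‖ := by linarith
  set q : ℝ := t / (2 * ‖z‖) with hq
  have hq0 : 0 ≤ q := by positivity
  have hq1 : q < 1 := by rw [hq, div_lt_one (by positivity)]; linarith
  have hb' := (summable_nat_add_iff (f := fun n : ℕ => (2 : ℝ) ^ n * ‖b n‖) 1).2 hb
  refine Summable.of_norm_bounded (hb'.mul_left (1 / (1 - q))) fun m => ?_
  have hn1 : ‖((m : ℂ) + 1)‖ = (m : ℝ) + 1 := by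
    have : ((m : ℂ) + 1) = ((m + 1 : ℕ) : ℂ) := by push_cast; ring
    rw [this, Complex.norm_natCast]; push_cast; ring
  rw [norm_mul, norm_mul, norm_dC ht, hn1, norm_inv, norm_pow]
  have h2 := nat_mul_pow_le hq0 hq1 (m + 1)
  have h3 : t ^ (m + 1) * (‖z‖ ^ (m + 1))⁻¹ = 2 ^ (m + 1) * q ^ (m + 1) := by
    rw [hq, ← mul_pow, ← inv_pow, ← mul_pow]; congr 1; field_simp
  calc ((m : ℝ) + 1) * (t ^ (m + 1) * ‖b (m + 1)‖ * (‖z‖ ^ (m + 1))⁻¹)
      = (((m + 1 : ℕ) : ℝ) * q ^ (m + 1)) * (2 ^ (m + 1) * ‖b (m + 1)‖) := by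
        push_cast
        linear_combination (((m : ℝ) + 1) * ‖b (m + 1)‖) * h3
    _ ≤ 1 / (1 - q) * (2 ^ (m + 1) * ‖b (m + 1)‖) := by gcongr

theorem summable_princ (ht : 0 < t) (hb : Summable (fun n : ℕ => 2 ^ n * ‖b n‖)) {z : ℂ}
    (hz : t / 2 < ‖z‖) : Summable (fun m : ℕ => dC t b m * (z ^ (m + 1))⁻¹) := by
  refine Summable.of_norm_bounded (summable_princ' ht hb hz).norm fun m => ?_
  rw [norm_mul ((m : ℂ) + 1)]
  have hn1 : ‖((m : ℂ) + 1)‖ = (m : ℝ) + 1 := by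
    have : ((m : ℂ) + 1) = ((m + 1 : ℕ) : ℂ) := by push_cast; ring
    rw [this, Complex.norm_natCast]; push_cast; ring
  rw [hn1]
  nlinarith [norm_nonneg (dC t b m * (z ^ (m + 1))⁻¹), Nat.cast_nonneg (α := ℝ) m]

theorem mem_US78 (ht8 : t < 1 / 8) {z : ℂ} (hz : t / 2 < ‖z‖) (hz8 : ‖z‖ < 7 / 8) :
    z ∈ US (t / 2) := mem_US_of_norm78 (by linarith) hz hz8.le

theorem F_eq (m n : ℕ) (z : ℂ) : dC t b m * ((-1 : ℂ) ^ (m + 1) *
      (Nat.choose (m + n) n : ℂ) * E (m + 1 + n) * z ^ n) =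
    ((Nat.choose (m + n) n : ℂ) * (t : ℂ) ^ (m + 1) * E (m + 1 + n) * conj (b (m + 1))) * z ^ n := by
  have h1 : ((-1 : ℂ) ^ (m + 1)) * (-1) ^ (m + 1) = 1 := by
    rw [← mul_pow]; simp
  rw [dC]
  linear_combination ((t : ℂ) ^ (m + 1) * conj (b (m + 1)) * (Nat.choose (m + n) n : ℂ) *
    E (m + 1 + n) * z ^ n) * h1

/-- expansion of `A` -/
theorem AS_expand (h : IsLat κ E γ M G) (ht : 0 < t) (ht8 : t < 1 / 8)
    (hb : Summable (fun n : ℕ => 2 ^ n * ‖b n‖)) {z : ℂ} (hz : t / 2 < ‖z‖) (hz8 : ‖z‖ < 7 / 8) :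
    HasSum (fun n => Hc E t b n * z ^ n)
      (AS M t b z - ∑' m : ℕ, dC t b m * (z ^ (m + 1))⁻¹) := by
  have hF := summable_F h ht ht8 hb hz8
  have hz0 : 0 < ‖z‖ := by linarith
  have hrow : ∀ m : ℕ, HasSum (fun n : ℕ => dC t b m * ((-1 : ℂ) ^ (m + 1) *
      (Nat.choose (m + n) n : ℂ) * E (m + 1 + n) * z ^ n))
      (dC t b m * (M (m + 1) z - (z ^ (m + 1))⁻¹)) := by
    intro m
    have h1 := (h.expand (m + 1) (by omega) z hz0 (by linarith)).mul_left (dC t b m)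
    refine h1.congr_fun ?_ |> fun h => h
    intro n
    rw [show m + 1 + n - 1 = m + n by omega]
  have h1 : HasSum (fun m : ℕ => dC t b m * (M (m + 1) z - (z ^ (m + 1))⁻¹))
      (AS M t b z - ∑' m : ℕ, dC t b m * (z ^ (m + 1))⁻¹) := by
    have h2 := (hasSum_AS h ht (by linarith) hb (mem_US78 ht8 hz hz8)).sub
      (summable_princ ht hb hz).hasSum
    refine h2.congr_fun ?_ |> fun h => h
    intro m; ring
  have h2 := hF.hasSum.prod_fiberwise hrow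
  have h3 := h2.unique h1
  have h4 : HasSum (fun q : ℕ × ℕ => dC t b q.2 * ((-1 : ℂ) ^ (q.2 + 1) *
      (Nat.choose (q.2 + q.1) q.1 : ℂ) * E (q.2 + 1 + q.1) * z ^ q.1))
      (AS M t b z - ∑' m : ℕ, dC t b m * (z ^ (m + 1))⁻¹) := by
    rw [← h3]
    exact (Equiv.prodComm ℕ ℕ).hasSum_iff.2 hF.hasSum
  have h5 : ∀ n : ℕ, HasSum (fun m : ℕ => dC t b m * ((-1 : ℂ) ^ (m + 1) *
      (Nat.choose (m + n) n : ℂ) * E (m + 1 + n) * z ^ n)) (Hc E t b n * z ^ n) := by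
    intro n
    have h6 := (h4.summable.prod_factor n).hasSum
    have h7 : ∑' m : ℕ, dC t b m * ((-1 : ℂ) ^ (m + 1) *
      (Nat.choose (m + n) n : ℂ) * E (m + 1 + n) * z ^ n) = Hc E t b n * z ^ n := by
      rw [Hc, ← tsum_mul_right]
      exact tsum_congr fun m => F_eq m n z
    rw [← h7]
    exact h6
  exact h4.prod_fiberwise h5

theorem F'_eq (m n : ℕ) (z : ℂ) : -((m : ℂ) + 1) * dC t b m * (z * ((-1 : ℂ) ^ (m + 2) *
      (Nat.choose (m + 1 + n) n : ℂ) * E (m + 2 + n) * z ^ n)) =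
    (((n : ℂ) + 1) * z ^ (n + 1)) * ((Nat.choose (m + (n + 1)) (n + 1) : ℂ) * (t : ℂ) ^ (m + 1) *
      E (m + 1 + (n + 1)) * conj (b (m + 1))) := by
  have h1 : ((-1 : ℂ) ^ (m + 1)) * (-1) ^ (m + 1) = 1 := by
    rw [← mul_pow]; simp
  have h2 : ((m : ℂ) + 1) * (Nat.choose (m + 1 + n) n : ℂ) =
      ((n : ℂ) + 1) * (Nat.choose (m + (n + 1)) (n + 1) : ℂ) := by
    have h3 : (m + 1) * Nat.choose (m + 1 + n) n = (n + 1) * Nat.choose (m + (n + 1)) (n + 1) := by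
      have e1 := Nat.add_one_mul_choose_eq (m + n) n
      have e2 := Nat.choose_mul_succ_eq (m + n) n
      have e3 : m + n + 1 - n = m + 1 := by omega
      rw [e3] at e2
      rw [show m + 1 + n = m + n + 1 by ring, show m + (n + 1) = m + n + 1 by ring]
      calc (m + 1) * (m + n + 1).choose n = (m + n + 1).choose n * (m + 1) := by ring
        _ = (m + n).choose n * (m + n + 1) := e2.symm
        _ = (m + n + 1) * (m + n).choose n := by ring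
        _ = (m + n + 1).choose (n + 1) * (n + 1) := e1
        _ = _ := by ring
    exact_mod_cast h3
  rw [dC, show m + 1 + (n + 1) = m + 2 + n by ring, pow_succ (-1 : ℂ) (m + 1), pow_succ z n]
  linear_combination ((t : ℂ) ^ (m + 1) * conj (b (m + 1)) * E (m + 2 + n) * z ^ n * z) * h2 +
    (((m : ℂ) + 1) * (t : ℂ) ^ (m + 1) * conj (b (m + 1)) * (Nat.choose (m + 1 + n) n : ℂ) *
    E (m + 2 + n) * z ^ n * z) * h1

/-- expansion of `z A'` -/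
theorem AS'_expand (h : IsLat κ E γ M G) (ht : 0 < t) (ht8 : t < 1 / 8)
    (hb : Summable (fun n : ℕ => 2 ^ n * ‖b n‖)) {z : ℂ} (hz : t / 2 < ‖z‖) (hz8 : ‖z‖ < 7 / 8) :
    HasSum (fun n : ℕ => ((n : ℂ) + 1) * Hc E t b (n + 1) * z ^ (n + 1))
      (z * deriv (AS M t b) z + ∑' m : ℕ, ((m : ℂ) + 1) * (dC t b m * (z ^ (m + 1))⁻¹)) := by
  have hF := summable_F' h ht ht8 hb hz8
  have hz0 : 0 < ‖z‖ := by linarith
  have hzne : z ≠ 0 := norm_pos_iff.1 hz0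
  have hrow : ∀ m : ℕ, HasSum (fun n : ℕ => -((m : ℂ) + 1) * dC t b m * (z * ((-1 : ℂ) ^ (m + 2) *
      (Nat.choose (m + 1 + n) n : ℂ) * E (m + 2 + n) * z ^ n)))
      (-((m : ℂ) + 1) * dC t b m * (z * (M (m + 2) z - (z ^ (m + 2))⁻¹))) := by
    intro m
    have h1 := ((h.expand (m + 2) (by omega) z hz0 (by linarith)).mul_left z).mul_left
      (-((m : ℂ) + 1) * dC t b m)
    refine h1.congr_fun ?_ |> fun h => h
    intro n
    rw [show m + 2 + n - 1 = m + 1 + n by omega]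
  have h1 : HasSum (fun m : ℕ => -((m : ℂ) + 1) * dC t b m * (z * (M (m + 2) z - (z ^ (m + 2))⁻¹)))
      (z * deriv (AS M t b) z + ∑' m : ℕ, ((m : ℂ) + 1) * (dC t b m * (z ^ (m + 1))⁻¹)) := by
    have h2 := ((hasSum_deriv_AS h ht (by linarith) hb (mem_US78 ht8 hz hz8)).2.mul_left z).add
      (summable_princ' ht hb hz).hasSum
    refine h2.congr_fun ?_ |> fun h => h
    intro m
    have h3 : z * (z ^ (m + 2))⁻¹ = (z ^ (m + 1))⁻¹ := by
      rw [pow_succ z (m + 1)]; field_simp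
    linear_combination (-((m : ℂ) + 1) * dC t b m) * (-h3)
  have h2 := hF.hasSum.prod_fiberwise hrow
  have h3 := h2.unique h1
  have h4 : HasSum (fun q : ℕ × ℕ => -((q.2 : ℂ) + 1) * dC t b q.2 * (z * ((-1 : ℂ) ^ (q.2 + 2) *
      (Nat.choose (q.2 + 1 + q.1) q.1 : ℂ) * E (q.2 + 2 + q.1) * z ^ q.1)))
      (z * deriv (AS M t b) z + ∑' m : ℕ, ((m : ℂ) + 1) * (dC t b m * (z ^ (m + 1))⁻¹)) := by
    rw [← h3]
    exact (Equiv.prodComm ℕ ℕ).hasSum_iff.2 hF.hasSum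
  have h5 : ∀ n : ℕ, HasSum (fun m : ℕ => -((m : ℂ) + 1) * dC t b m * (z * ((-1 : ℂ) ^ (m + 2) *
      (Nat.choose (m + 1 + n) n : ℂ) * E (m + 2 + n) * z ^ n)))
      (((n : ℂ) + 1) * Hc E t b (n + 1) * z ^ (n + 1)) := by
    intro n
    have h6 := (h4.summable.prod_factor n).hasSum
    have h7 : ∑' m : ℕ, -((m : ℂ) + 1) * dC t b m * (z * ((-1 : ℂ) ^ (m + 2) *
      (Nat.choose (m + 1 + n) n : ℂ) * E (m + 2 + n) * z ^ n)) =
        ((n : ℂ) + 1) * Hc E t b (n + 1) * z ^ (n + 1) := by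
      rw [Hc, show ((n : ℂ) + 1) * (∑' m : ℕ, (Nat.choose (m + (n + 1)) (n + 1) : ℂ) *
        (t : ℂ) ^ (m + 1) * E (m + 1 + (n + 1)) * conj (b (m + 1))) * z ^ (n + 1) =
        (((n : ℂ) + 1) * z ^ (n + 1)) * (∑' m : ℕ, (Nat.choose (m + (n + 1)) (n + 1) : ℂ) *
        (t : ℂ) ^ (m + 1) * E (m + 1 + (n + 1)) * conj (b (m + 1))) by ring, ← tsum_mul_left]
      exact tsum_congr fun m => F'_eq m n z
    rw [← h7]
    exact h6
  exact h4.prod_fiberwise h5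

end

end FB.P1
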