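import Pool.Agent.FB.Psi1.Series

/-!
MP_15d50e, block PSI1: expansion of the series `A` and of its derivative for `t/2 < |z| < 7/8`.
-/

open Complex Set
open scoped ComplexConjugate Real

namespace FB.P1

/-- `Hc n = sum_{m >= 0} binom(m+n,n) t^(m+1) E_(m+1+n) conj b_(m+1)` -/
noncomputable def Hc (E : ℕ → ℂ) (t : ℝ) (b : ℕ → ℂ) (n : ℕ) : ℂ :=
  ∑' m : ℕ, (Nat.choose (m + n) n : ℂ) * (t : ℂ) ^ (m + 1) * E (m + 1 + n) * conj (b (m + 1))

section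

variable {κ : ℂ} {E : ℕ → ℂ} {γ : ℝ} {M : ℕ → ℂ → ℂ} {G : ℂ → ℂ} {t : ℝ} {b : ℕ → ℂ}

/-- growth of the lattice constants, from the convergence of the expansions in `|z| < 1` -/
theorem exists_E_bound (h : IsLat κ E γ M G) :
    ∃ C : ℝ, 0 ≤ C ∧ ∀ j : ℕ, 1 ≤ j → ‖E j‖ ≤ C * (32 / 31) ^ j := by
  have hz : ‖((31 / 32 : ℝ) : ℂ)‖ = 31 / 32 := by
    rw [Complex.norm_real, Real.norm_of_nonneg (by norm_num)]
  have h1 := (h.expand 1 le_rfl ((31 / 32 : ℝ) : ℂ) (by rw [hz]; norm_num)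
    (by rw [hz]; norm_num)).summable.norm
  set f : ℕ → ℝ := fun m => ‖(-1 : ℂ) ^ 1 * (Nat.choose (1 + m - 1) m : ℂ) * E (1 + m) *
    ((31 / 32 : ℝ) : ℂ) ^ m‖ with hf
  have hf2 : ∀ m, f m = ‖E (1 + m)‖ * (31 / 32) ^ m := by
    intro m
    simp only [hf]
    rw [show 1 + m - 1 = m by omega, Nat.choose_self]
    rw [norm_mul, norm_pow, hz]
    simp
  refine ⟨∑' m, f m, tsum_nonneg fun m => norm_nonneg _, ?_⟩
  intro j hj
  obtain ⟨m, rfl⟩ : ∃ m, j = 1 + m := ⟨j - 1, by omega⟩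
  have h2 : f m ≤ ∑' m, f m := h1.le_tsum m fun _ _ => norm_nonneg _
  rw [hf2] at h2
  have h3 : (0 : ℝ) ≤ ∑' m, f m := tsum_nonneg fun m => norm_nonneg _
  calc ‖E (1 + m)‖ = (‖E (1 + m)‖ * (31 / 32) ^ m) * (32 / 31) ^ m := by
        rw [mul_assoc, ← mul_pow]; norm_num
    _ ≤ (∑' m, f m) * (32 / 31) ^ m := by gcongr
    _ ≤ (∑' m, f m) * (32 / 31) ^ (1 + m) := by
        gcongr
        · norm_num
        · omega

/-- `sum_n binom(m+n,n) x^n = (1-x)^-(m+1)` -/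
theorem hasSum_choose {x : ℝ} (h0 : 0 ≤ x) (h1 : x < 1) (m : ℕ) :
    HasSum (fun n : ℕ => (Nat.choose (m + n) n : ℝ) * x ^ n) (1 / (1 - x) ^ (m + 1)) := by
  have h := hasSum_choose_mul_geometric_of_norm_lt_one (𝕜 := ℝ) m (r := x)
    (by rw [Real.norm_of_nonneg h0]; exact h1)
  refine h.congr_fun ?_ |> fun h => h
  intro n
  rw [show n + m = m + n by omega, Nat.choose_symm_add]

/-- summability of a double family dominated by binomial geometric rows -/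
theorem summable_double {f : ℕ × ℕ → ℂ} {w : ℕ → ℝ} (hw : ∀ m, 0 ≤ w m) (r : ℕ → ℕ) {x : ℝ}
    (h0 : 0 ≤ x) (h1 : x < 1)
    (hf : ∀ m n, ‖f (m, n)‖ ≤ w m * ((Nat.choose (r m + n) n : ℝ) * x ^ n))
    (hs : Summable fun m => w m * (1 / (1 - x) ^ (r m + 1))) : Summable f := by
  have hrow : ∀ m, HasSum (fun n => w m * ((Nat.choose (r m + n) n : ℝ) * x ^ n))
      (w m * (1 / (1 - x) ^ (r m + 1))) := fun m => (hasSum_choose h0 h1 (r m)).mul_left (w m)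
  have hg : Summable (fun q : ℕ × ℕ => w q.1 * ((Nat.choose (r q.1 + q.2) q.2 : ℝ) * x ^ q.2)) := by
    rw [summable_prod_of_nonneg]
    · refine ⟨fun m => (hrow m).summable, ?_⟩
      refine hs.congr fun m => ?_
      exact ((hrow m).tsum_eq).symm
    · intro q
      have := hw q.1
      positivity
  exact Summable.of_norm_bounded hg fun q => hf q.1 q.2

theorem exists_sum_bound (ht : 0 < t) (ht8 : t < 1 / 8)
    (hb : Summable (fun n : ℕ => 2 ^ n * ‖b n‖)) {x : ℝ} (h1 : x ≤ 28 / 31) :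
    Summable (fun m : ℕ => ((m : ℝ) + 1) * ‖dC t b m‖ * (32 / 31) ^ (m + 2) *
      (1 / (1 - x) ^ (m + 1 + 1))) := by
  have hb' := (summable_nat_add_iff (f := fun n : ℕ => (2 : ℝ) ^ n * ‖b n‖) 1).2 hb
  have h3 := hb'.mul_left ((32 / 31) * (31 / 3) * (1 / (1 - 2 / 3)) : ℝ)
  refine Summable.of_nonneg_of_le (fun m => ?_) (fun m => ?_) h3
  · have : 0 < 1 - x := by linarith
    positivity
  · rw [norm_dC ht]
    have hx : 0 < 1 - x := by linarith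
    have h4 : 1 / (1 - x) ^ (m + 1 + 1) ≤ (31 / 3) ^ (m + 1 + 1) := by
      rw [div_le_iff₀ (by positivity), ← mul_pow]
      apply one_le_pow₀
      nlinarith
    have h5 := nat_mul_pow_le (q := 2 / 3) (by norm_num) (by norm_num) (m + 1)
    have h6 : t ^ (m + 1) ≤ (1 / 8 : ℝ) ^ (m + 1) := pow_le_pow_left₀ ht.le ht8.le _
    have hpow : (1 / 8 : ℝ) ^ (m + 1) * (32 / 31) ^ (m + 2) * (31 / 3) ^ (m + 1 + 1) =
        (32 / 31) * (31 / 3) * (2 ^ (m + 1) * (2 / 3) ^ (m + 1)) := by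
      rw [show m + 2 = (m + 1) + 1 by ring, pow_succ (32 / 31 : ℝ), pow_succ (31 / 3 : ℝ),
        ← mul_pow 2 (2 / 3 : ℝ)]
      have : ((1 / 8 : ℝ)) ^ (m + 1) * (32 / 31) ^ (m + 1) * (31 / 3) ^ (m + 1) =
          (2 * (2 / 3)) ^ (m + 1) := by
        rw [← mul_pow, ← mul_pow]; norm_num
      linear_combination (32 / 31 * (31 / 3)) * this
    calc ((m : ℝ) + 1) * (t ^ (m + 1) * ‖b (m + 1)‖) * (32 / 31) ^ (m + 2) *
          (1 / (1 - x) ^ (m + 1 + 1))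
        ≤ ((m : ℝ) + 1) * ((1 / 8 : ℝ) ^ (m + 1) * ‖b (m + 1)‖) * (32 / 31) ^ (m + 2) *
          (31 / 3) ^ (m + 1 + 1) := by gcongr
      _ = (32 / 31) * (31 / 3) * (((m : ℝ) + 1) * (2 / 3) ^ (m + 1)) *
          (2 ^ (m + 1) * ‖b (m + 1)‖) := by
          linear_combination (((m : ℝ) + 1) * ‖b (m + 1)‖) * hpow
      _ ≤ (32 / 31) * (31 / 3) * (1 / (1 - 2 / 3)) * (2 ^ (m + 1) * ‖b (m + 1)‖) := by
          gcongr
          exact_mod_cast h5

/-- the double family of `A` -/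
theorem summable_F (h : IsLat κ E γ M G) (ht : 0 < t) (ht8 : t < 1 / 8)
    (hb : Summable (fun n : ℕ => 2 ^ n * ‖b n‖)) {z : ℂ} (hz : ‖z‖ < 7 / 8) :
    Summable (fun q : ℕ × ℕ => dC t b q.1 * ((-1 : ℂ) ^ (q.1 + 1) *
      (Nat.choose (q.1 + q.2) q.2 : ℂ) * E (q.1 + 1 + q.2) * z ^ q.2)) := by
  obtain ⟨C, hC0, hC⟩ := exists_E_bound h
  set x : ℝ := 32 / 31 * ‖z‖ with hx
  have hx0 : 0 ≤ x := by positivity
  have hx1 : x ≤ 28 / 31 := by rw [hx]; linarith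
  have hw0 : ∀ m : ℕ, 0 ≤ C * (‖dC t b m‖ * (32 / 31) ^ (m + 1)) := fun m => by positivity
  refine summable_double (w := fun m => C * (‖dC t b m‖ * (32 / 31) ^ (m + 1))) hw0
    (fun m => m) hx0 (by linarith) ?_ ?_
  · intro m n
    simp only [norm_mul, norm_pow, norm_neg, norm_one, one_pow, one_mul, Complex.norm_natCast]
    have h2 := hC (m + 1 + n) (by omega)
    calc ‖dC t b m‖ * ((Nat.choose (m + n) n : ℝ) * ‖E (m + 1 + n)‖ * ‖z‖ ^ n)
        ≤ ‖dC t b m‖ * ((Nat.choose (m + n) n : ℝ) * (C * (32 / 31) ^ (m + 1 + n)) * ‖z‖ ^ n) := by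
          gcongr
      _ = C * (‖dC t b m‖ * (32 / 31) ^ (m + 1)) * ((Nat.choose (m + n) n : ℝ) * x ^ n) := by
          rw [hx, mul_pow, pow_add (32 / 31 : ℝ) (m + 1) n]; ring
  · refine Summable.of_nonneg_of_le (fun m => ?_) (fun m => ?_)
      ((exists_sum_bound ht ht8 hb hx1).mul_left C)
    · have : 0 < 1 - x := by linarith
      positivity
    · have h1x : 0 < 1 - x := by linarith
      have e1 : (‖dC t b m‖ * (32 / 31 : ℝ) ^ (m + 1)) * (1 / (1 - x) ^ (m + 1)) ≤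
          ((m : ℝ) + 1) * ‖dC t b m‖ * (32 / 31) ^ (m + 2) * (1 / (1 - x) ^ (m + 1 + 1)) := by
        have e2 : ‖dC t b m‖ ≤ ((m : ℝ) + 1) * ‖dC t b m‖ := by
          nlinarith [norm_nonneg (dC t b m), Nat.cast_nonneg (α := ℝ) m]
        have e3 : (32 / 31 : ℝ) ^ (m + 1) ≤ (32 / 31) ^ (m + 2) :=
          pow_le_pow_right₀ (by norm_num) (by omega)
        have e4 : 1 / (1 - x) ^ (m + 1) ≤ 1 / (1 - x) ^ (m + 1 + 1) := by
          apply one_div_le_one_div_of_le (by positivity)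
          exact pow_le_pow_of_le_one h1x.le (by linarith) (by omega)
        gcongr
      calc C * (‖dC t b m‖ * (32 / 31) ^ (m + 1)) * (1 / (1 - x) ^ (m + 1))
          = C * ((‖dC t b m‖ * (32 / 31) ^ (m + 1)) * (1 / (1 - x) ^ (m + 1))) := by ring
        _ ≤ _ := by gcongr

/-- the double family of `z A'` -/
theorem summable_F' (h : IsLat κ E γ M G) (ht : 0 < t) (ht8 : t < 1 / 8)
    (hb : Summable (fun n : ℕ => 2 ^ n * ‖b n‖)) {z : ℂ} (hz : ‖z‖ < 7 / 8) :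
    Summable (fun q : ℕ × ℕ => -((q.1 : ℂ) + 1) * dC t b q.1 * (z * ((-1 : ℂ) ^ (q.1 + 2) *
      (Nat.choose (q.1 + 1 + q.2) q.2 : ℂ) * E (q.1 + 2 + q.2) * z ^ q.2))) := by
  obtain ⟨C, hC0, hC⟩ := exists_E_bound h
  set x : ℝ := 32 / 31 * ‖z‖ with hx
  have hx0 : 0 ≤ x := by positivity
  have hx1 : x ≤ 28 / 31 := by rw [hx]; linarith
  have hw0 : ∀ m : ℕ, 0 ≤ C * (((m : ℝ) + 1) * ‖dC t b m‖ * (32 / 31) ^ (m + 2)) :=
    fun m => by positivity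
  refine summable_double (w := fun m => C * (((m : ℝ) + 1) * ‖dC t b m‖ * (32 / 31) ^ (m + 2)))
    hw0 (fun m => m + 1) hx0 (by linarith) ?_ ?_
  · intro m n
    have hn1 : ‖-((m : ℂ) + 1)‖ = (m : ℝ) + 1 := by
      rw [norm_neg]
      have : ((m : ℂ) + 1) = ((m + 1 : ℕ) : ℂ) := by push_cast; ring
      rw [this, Complex.norm_natCast]; push_cast; ring
    simp only [norm_mul, norm_pow, norm_neg, norm_one, one_pow, one_mul, Complex.norm_natCast] at *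
    rw [hn1]
    have h2 := hC (m + 2 + n) (by omega)
    have hz1 : ‖z‖ ≤ 1 := by linarith
    calc ((m : ℝ) + 1) * ‖dC t b m‖ *
          (‖z‖ * ((Nat.choose (m + 1 + n) n : ℝ) * ‖E (m + 2 + n)‖ * ‖z‖ ^ n))
        ≤ ((m : ℝ) + 1) * ‖dC t b m‖ *
          (1 * ((Nat.choose (m + 1 + n) n : ℝ) * (C * (32 / 31) ^ (m + 2 + n)) * ‖z‖ ^ n)) := by
          gcongr
      _ = C * (((m : ℝ) + 1) * ‖dC t b m‖ * (32 / 31) ^ (m + 2)) *
          ((Nat.choose (m + 1 + n) n : ℝ) * x ^ n) := by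
          rw [hx, mul_pow, pow_add (32 / 31 : ℝ) (m + 2) n]; ring
  · refine ((exists_sum_bound ht ht8 hb hx1).mul_left C).congr fun m => ?_
    ring

end

end FB.P1
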