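import Pool.Agent.FB.Psi1.Exp

/-!
MP_15d50e, block PSI1: `psi1 : TheoremPSI1`.
-/

open Complex Set
open scoped ComplexConjugate Real

namespace FB.P1

section

variable {κ : ℂ} {E : ℕ → ℂ} {γ : ℝ} {M : ℕ → ℂ → ℂ} {G : ℂ → ℂ} {t : ℝ} {b : ℕ → ℂ}

theorem regC_succ (E : ℕ → ℂ) (t β : ℝ) (b : ℕ → ℂ) (n : ℕ) : regC E t β b (n + 1) =
    (t : ℂ) ^ (n + 1) * (-(β : ℂ) * E (n + 1) / (2 * ((n : ℂ) + 1)) + Hc E t b (n + 1)) := by
  rw [regC, if_neg (by omega), Hc]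
  push_cast
  rfl

/-- the constant term: `beta (gamma + log t) + 2 Re (Hc 0) = 1` -/
theorem constC_eq (E : ℕ → ℂ) (γ t β : ℝ) (b : ℕ → ℂ)
    (hs : Summable fun m : ℕ => (Nat.choose (m + 0) 0 : ℂ) * (t : ℂ) ^ (m + 1) * E (m + 1 + 0) *
      conj (b (m + 1))) :
    (constC E γ t β b : ℂ) = β * (γ + Real.log t) + Hc E t b 0 + conj (Hc E t b 0) := by
  have h1 : (Hc E t b 0).re = ∑' m : ℕ, t ^ (m + 1) * (E (m + 1) * conj (b (m + 1))).re := by
    rw [Hc, Complex.re_tsum hs]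
    refine tsum_congr fun m => ?_
    simp only [Nat.choose_zero_right, Nat.cast_one, one_mul, add_zero]
    rw [mul_assoc, ← Complex.ofReal_pow, Complex.re_ofReal_mul]
  rw [add_assoc, Complex.add_conj, h1, constC]
  push_cast
  ring

/-- `d_m (z^(m+1))^-1 = (-1)^(m+1) conj b_(m+1) (t/z)^(m+1)` -/
theorem dC_princ (m : ℕ) (z : ℂ) : dC t b m * (z ^ (m + 1))⁻¹ =
    (-1) ^ (m + 1) * conj (b (m + 1)) * (t / z) ^ (m + 1) := by
  rw [dC, div_pow, div_eq_mul_inv]; ring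

theorem dC_princ_conj (m : ℕ) (z : ℂ) : conj (dC t b m * ((-z) ^ (m + 1))⁻¹) =
    b (m + 1) * (t / conj z) ^ (m + 1) := by
  have h1 : ((-1 : ℂ) ^ (m + 1)) * (-1) ^ (m + 1) = 1 := by
    rw [← mul_pow]; simp
  rw [dC_princ]
  simp only [map_mul, map_pow, map_neg, map_one, Complex.conj_conj, map_div₀, Complex.conj_ofReal]
  have h2 : ((t : ℂ) / -(conj z)) ^ (m + 1) = (-1) ^ (m + 1) * (t / conj z) ^ (m + 1) := by
    rw [← mul_pow]; congr 1; rw [div_neg]; ring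
  rw [h2]
  linear_combination (b (m + 1) * (t / conj z) ^ (m + 1)) * h1

theorem isLocal_psi (h : IsLat κ E γ M G) (ht : 0 < t) (ht8 : t < 1 / 8) (hb0 : b 0 = 0)
    (hb : Summable (fun n : ℕ => 2 ^ n * ‖b n‖)) {β : ℝ} (hone : constC E γ t β b = 1) {z : ℂ}
    (hz : t / 2 < ‖z‖) (hz8 : ‖z‖ < 7 / 8) :
    HasSum (fun n : ℕ => regC E t β b n * (z / t) ^ n +
        (-1) ^ n * conj (regC E t β b n) * (conj z / t) ^ n +
        b n * (t / conj z) ^ n + (-1) ^ n * conj (b n) * (t / z) ^ n)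
      (psiF M G t β b z - 1 - ((β * Real.log (‖z‖ / t) : ℝ) : ℂ)) := by
  have hz0 : 0 < ‖z‖ := by linarith
  have hzne : z ≠ 0 := norm_pos_iff.1 hz0
  have htne : (t : ℂ) ≠ 0 := by exact_mod_cast ht.ne'
  have hUS := mem_US78 ht8 hz hz8
  have hzn : t / 2 < ‖-z‖ := by rwa [norm_neg]
  have hzn8 : ‖-z‖ < 7 / 8 := by rwa [norm_neg]
  -- the four series
  have hA := AS_expand h ht ht8 hb hz hz8
  have hA' := AS_expand h ht ht8 hb hzn hzn8
  have hA1 := (hasSum_nat_add_iff' 1).2 hA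
  have hA1' := (hasSum_nat_add_iff' 1).2 hA'
  simp only [Finset.sum_range_one, pow_zero, mul_one] at hA1 hA1'
  have hA2 := Complex.hasSum_conj'.2 hA1'
  have hG := (h.G_expand z hz0 (by linarith)).mul_left (β : ℂ)
  have hP := (summable_princ ht hb hz).hasSum
  have hP' := (summable_princ ht hb hzn).hasSum
  have hP2 : HasSum (fun m : ℕ => b (m + 1) * (t / conj z) ^ (m + 1))
      (conj (∑' m : ℕ, dC t b m * ((-z) ^ (m + 1))⁻¹)) := by
    have := Complex.hasSum_conj'.2 hP'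
    refine this.congr_fun ?_ |> fun h => h
    intro m
    exact (dC_princ_conj m z).symm
  have hP3 : HasSum (fun m : ℕ => (-1) ^ (m + 1) * conj (b (m + 1)) * (t / z) ^ (m + 1))
      (∑' m : ℕ, dC t b m * (z ^ (m + 1))⁻¹) := by
    refine hP.congr_fun ?_ |> fun h => h
    intro m
    exact (dC_princ m z).symm
  have hall := (((hG.add hA1).add hA2).add hP2).add hP3
  rw [← hasSum_nat_add_iff' 1]
  simp only [Finset.sum_range_one, pow_zero, mul_one]
  have hr0 : regC E t β b 0 = 0 := by simp [regC]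
  rw [hr0, hb0]
  simp only [map_zero, mul_zero, add_zero, sub_zero]
  have hs0 : Summable fun m : ℕ => (Nat.choose (m + 0) 0 : ℂ) * (t : ℂ) ^ (m + 1) * E (m + 1 + 0) *
      conj (b (m + 1)) := by
    have h1 := (summable_F h ht ht8 hb hz8).prod_symm.prod_factor 0
    refine h1.congr fun m => ?_
    have h2 := F_eq (E := E) (t := t) (b := b) m 0 z
    rw [pow_zero, mul_one] at h2
    simpa using h2
  have hc := constC_eq E γ t β b hs0
  rw [hone] at hc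
  have hlog : Real.log (‖z‖ / t) = Real.log ‖z‖ - Real.log t :=
    Real.log_div hz0.ne' ht.ne'
  have hval : psiF M G t β b z - 1 - ((β * Real.log (‖z‖ / t) : ℝ) : ℂ) =
      β * (G z - Real.log ‖z‖ - γ) +
      (AS M t b z - (∑' m : ℕ, dC t b m * (z ^ (m + 1))⁻¹) - Hc E t b 0) +
      conj (AS M t b (-z) - (∑' m : ℕ, dC t b m * ((-z) ^ (m + 1))⁻¹) - Hc E t b 0) +
      conj (∑' m : ℕ, dC t b m * ((-z) ^ (m + 1))⁻¹) +
      (∑' m : ℕ, dC t b m * (z ^ (m + 1))⁻¹) := by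
    rw [psiF_eq h ht (by linarith) hb β hUS, hlog]
    simp only [map_sub]
    push_cast at hc ⊢
    linear_combination -hc
  rw [hval]
  refine hall.congr_fun ?_ |> fun h => h
  intro n
  rw [regC_succ]
  have hn : ((n : ℂ) + 1) ≠ 0 := by exact_mod_cast Nat.succ_ne_zero n
  have e1 : (t : ℂ) ^ (n + 1) * (z / t) ^ (n + 1) = z ^ (n + 1) := by
    rw [← mul_pow]; congr 1; field_simp
  have e2 : (t : ℂ) ^ (n + 1) * (conj z / t) ^ (n + 1) = conj z ^ (n + 1) := by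
    rw [← mul_pow]; congr 1; field_simp
  have e3 : (-(conj z)) ^ (n + 1) = (-1) ^ (n + 1) * conj z ^ (n + 1) := by
    rw [← mul_pow]; congr 1; ring
  simp only [map_mul, map_pow, map_neg, map_add, map_div₀, map_one, map_natCast, map_ofNat,
    Complex.conj_ofReal]
  rw [e3]
  linear_combination (-(β : ℂ) * E (n + 1) / (2 * ((n : ℂ) + 1)) + Hc E t b (n + 1)) * e1 +
    ((-1) ^ (n + 1) * (-(β : ℂ) * conj (E (n + 1)) / (2 * ((n : ℂ) + 1)) +
      conj (Hc E t b (n + 1)))) * e2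

theorem isLocal_om (h : IsLat κ E γ M G) (ht : 0 < t) (ht8 : t < 1 / 8)
    (hb : Summable (fun n : ℕ => 2 ^ n * ‖b n‖)) (β : ℝ) {z : ℂ}
    (hz : t / 2 < ‖z‖) (hz8 : ‖z‖ < 7 / 8) :
    HasSum (fun n : ℕ => (n : ℂ) * (regC E t β b n * (z / t) ^ n -
      (-1) ^ n * conj (b n) * (t / z) ^ n)) (z * omF M t β b z - β / 2) := by
  have hz0 : 0 < ‖z‖ := by linarith
  have hzne : z ≠ 0 := norm_pos_iff.1 hz0
  have htne : (t : ℂ) ≠ 0 := by exact_mod_cast ht.ne'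
  have hUS := mem_US78 ht8 hz hz8
  have hA := AS'_expand h ht ht8 hb hz hz8
  have hM := (h.expand 1 le_rfl z hz0 (by linarith)).mul_left ((β : ℂ) / 2 * z)
  have hP := (summable_princ' ht hb hz).hasSum
  have hall := (hM.add hA).sub hP
  rw [← hasSum_nat_add_iff' 1]
  simp only [Finset.sum_range_one, Nat.cast_zero, zero_mul, sub_zero]
  have hval : z * omF M t β b z - β / 2 = (β : ℂ) / 2 * z * (M 1 z - (z ^ 1)⁻¹) +
      (z * deriv (AS M t b) z + ∑' m : ℕ, ((m : ℂ) + 1) * (dC t b m * (z ^ (m + 1))⁻¹)) -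
      ∑' m : ℕ, ((m : ℂ) + 1) * (dC t b m * (z ^ (m + 1))⁻¹) := by
    rw [omF_eq h ht (by linarith) hb β hUS]
    field_simp
    ring
  rw [hval]
  refine hall.congr_fun ?_ |> fun h => h
  intro n
  rw [regC_succ, dC_princ]
  have hn : ((n : ℂ) + 1) ≠ 0 := by exact_mod_cast Nat.succ_ne_zero n
  have e1 : (t : ℂ) ^ (n + 1) * (z / t) ^ (n + 1) = z ^ (n + 1) := by
    rw [← mul_pow]; congr 1; field_simp
  have e4 : (Nat.choose (1 + n - 1) n : ℂ) = 1 := by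
    rw [show 1 + n - 1 = n by omega, Nat.choose_self]; simp
  rw [e4, show 1 + n = n + 1 by ring]
  push_cast
  have e5 : ((n : ℂ) + 1) * (-(β : ℂ) * E (n + 1) / (2 * ((n : ℂ) + 1))) =
      -(β : ℂ) * E (n + 1) / 2 := by field_simp
  linear_combination (((n : ℂ) + 1) * (-(β : ℂ) * E (n + 1) / (2 * ((n : ℂ) + 1)) +
    Hc E t b (n + 1))) * e1 + z ^ (n + 1) * e5

end

/-- THEOREM PSI1 -/
theorem psi1 : TheoremPSI1 := by
  intro κ C E γ M G t β b _ h ht ht8 hb0 hb hone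
  refine ⟨isBlochHarm_psiF h ht (by linarith) hb β, ?_, ?_⟩
  · exact fun z hz hz8 => isLocal_psi h ht ht8 hb0 hb hone hz hz8
  · exact fun z hz hz8 => isLocal_om h ht ht8 hb β hz hz8

end FB.P1

/-- THEOREM PSI1 -/
theorem FB.psi1 : FB.TheoremPSI1 := FB.P1.psi1
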