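import Pool.Agent.FB.Psi1.Base

/-!
MP_15d50e, block PSI1: the holomorphic series `A(z) = sum_{m >= 1} d_m M_m(z)` on `US (t/2)`,
its derivative, and `psiF = beta G + A + conj (A (-z))`.
-/

open Complex Set
open scoped ComplexConjugate Real

namespace FB.P1

/-- coefficient `t^(m+1) (-1)^(m+1) conj (b (m+1))` -/
noncomputable def dC (t : ℝ) (b : ℕ → ℂ) (m : ℕ) : ℂ :=
  (t : ℂ) ^ (m + 1) * (-1) ^ (m + 1) * conj (b (m + 1))

theorem norm_dC {t : ℝ} (ht : 0 < t) (b : ℕ → ℂ) (m : ℕ) :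
    ‖dC t b m‖ = t ^ (m + 1) * ‖b (m + 1)‖ := by
  simp [dC, abs_of_pos ht]

/-- `A(z) = sum_{m >= 1} d_m M_m(z)` -/
noncomputable def AS (M : ℕ → ℂ → ℂ) (t : ℝ) (b : ℕ → ℂ) (z : ℂ) : ℂ :=
  ∑' m : ℕ, dC t b m * M (m + 1) z

theorem nat_mul_pow_le {q : ℝ} (hq0 : 0 ≤ q) (hq : q < 1) (n : ℕ) : n * q ^ n ≤ 1 / (1 - q) := by
  have h1 : 0 < 1 - q := by linarith
  rw [le_div_iff₀ h1]
  have h2 : (1 - q) * ∑ i ∈ Finset.range n, q ^ i = 1 - q ^ n := by
    have := geom_sum_mul q n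
    linear_combination -this
  have h3 : (n : ℝ) * q ^ n ≤ ∑ i ∈ Finset.range n, q ^ i := by
    calc (n : ℝ) * q ^ n = ∑ _i ∈ Finset.range n, q ^ n := by simp
      _ ≤ ∑ i ∈ Finset.range n, q ^ i := by
        refine Finset.sum_le_sum fun i hi => ?_
        exact pow_le_pow_of_le_one hq0 hq.le (Finset.mem_range.1 hi).le
  have h4 : 0 ≤ q ^ n := by positivity
  nlinarith

section

variable {κ : ℂ} {E : ℕ → ℂ} {γ : ℝ} {M : ℕ → ℂ → ℂ} {G : ℂ → ℂ} {t : ℝ} {b : ℕ → ℂ}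

/-- domination on `US s`, `s > t/2` -/
theorem exists_dom (h : IsLat κ E γ M G) (ht : 0 < t)
    (hb : Summable (fun n : ℕ => 2 ^ n * ‖b n‖)) {s : ℝ} (hs : t / 2 < s) (hs4 : s ≤ 1 / 4) :
    ∃ u : ℕ → ℝ, Summable u ∧ ∀ m, ∀ z ∈ US s, ‖dC t b m * M (m + 1) z‖ ≤ u m := by
  obtain ⟨C, hC0, hC⟩ := growth_US h
  have hs0 : 0 < s := by linarith
  set q : ℝ := t / (2 * s) with hq
  have hq0 : 0 ≤ q := by positivity
  have hq1 : q < 1 := by rw [hq, div_lt_one (by positivity)]; linarith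
  refine ⟨fun m => C * (1 / (1 - q)) * ((2 : ℝ) ^ (m + 1) * ‖b (m + 1)‖), ?_, ?_⟩
  · exact ((summable_nat_add_iff (f := fun n : ℕ => (2 : ℝ) ^ n * ‖b n‖) 1).2 hb).mul_left _
  · intro m z hz
    have h1 := hC s hs0 hs4 (m + 1) (by omega) z hz
    have h2 := nat_mul_pow_le hq0 hq1 (m + 1)
    rw [norm_mul, norm_dC ht]
    have h3 : t ^ (m + 1) * (s ^ (m + 1))⁻¹ = 2 ^ (m + 1) * q ^ (m + 1) := by
      rw [hq, ← mul_pow, ← inv_pow, ← mul_pow]; congr 1; field_simp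
    calc t ^ (m + 1) * ‖b (m + 1)‖ * ‖M (m + 1) z‖
        ≤ t ^ (m + 1) * ‖b (m + 1)‖ * (C * (s ^ (m + 1))⁻¹ * ((m + 1 : ℕ) : ℝ)) := by gcongr
      _ = C * (((m + 1 : ℕ) : ℝ) * q ^ (m + 1)) * (2 ^ (m + 1) * ‖b (m + 1)‖) := by
          linear_combination (‖b (m + 1)‖ * C * ((m + 1 : ℕ) : ℝ)) * h3
      _ ≤ C * (1 / (1 - q)) * (2 ^ (m + 1) * ‖b (m + 1)‖) := by gcongr

theorem M_diff (h : IsLat κ E γ M G) {n : ℕ} (hn : 1 ≤ n) : DifferentiableOn ℂ (M n) (US 0) :=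
  fun z hz => (h.deriv n hn z hz).differentiableAt.differentiableWithinAt

/-- `exists s` with `t/2 < s ≤ 1/4` for points of `US (t/2)` -/
theorem exists_s (ht8 : t < 1 / 4) {z : ℂ} (hz : z ∈ US (t / 2)) :
    ∃ s : ℝ, t / 2 < s ∧ s ≤ 1 / 4 ∧ z ∈ US s := by
  obtain ⟨s', h1, h2⟩ := exists_US_gt hz
  refine ⟨min s' (1 / 4), lt_min h1 (by linarith), min_le_right _ _, ?_⟩
  exact US_mono (min_le_left _ _) h2

theorem summable_AS (h : IsLat κ E γ M G) (ht : 0 < t) (ht8 : t < 1 / 4)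
    (hb : Summable (fun n : ℕ => 2 ^ n * ‖b n‖)) {z : ℂ} (hz : z ∈ US (t / 2)) :
    Summable (fun m => dC t b m * M (m + 1) z) := by
  obtain ⟨s, hs1, hs2, hs3⟩ := exists_s ht8 hz
  obtain ⟨u, hu, hu2⟩ := exists_dom h ht hb hs1 hs2
  exact Summable.of_norm_bounded hu fun m => hu2 m z hs3

theorem hasSum_AS (h : IsLat κ E γ M G) (ht : 0 < t) (ht8 : t < 1 / 4)
    (hb : Summable (fun n : ℕ => 2 ^ n * ‖b n‖)) {z : ℂ} (hz : z ∈ US (t / 2)) :
    HasSum (fun m => dC t b m * M (m + 1) z) (AS M t b z) := (summable_AS h ht ht8 hb hz).hasSum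

theorem hasSum_deriv_AS (h : IsLat κ E γ M G) (ht : 0 < t) (ht8 : t < 1 / 4)
    (hb : Summable (fun n : ℕ => 2 ^ n * ‖b n‖)) {z : ℂ} (hz : z ∈ US (t / 2)) :
    DifferentiableAt ℂ (AS M t b) z ∧
    HasSum (fun m : ℕ => -((m : ℂ) + 1) * dC t b m * M (m + 2) z) (deriv (AS M t b) z) := by
  obtain ⟨s, hs1, hs2, hs3⟩ := exists_s ht8 hz
  obtain ⟨u, hu, hu2⟩ := exists_dom h ht hb hs1 hs2
  have hs0 : 0 < s := by linarith
  have hd : ∀ m, DifferentiableOn ℂ (fun z => dC t b m * M (m + 1) z) (US s) := fun m =>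
    ((M_diff h (by omega)).mono (US_mono hs0.le)).const_mul _
  have h1 := Complex.hasSum_deriv_of_summable_norm hu hd (isOpen_US s) hu2 hs3
  have h2 := Complex.differentiableOn_tsum_of_summable_norm hu hd (isOpen_US s) hu2
  refine ⟨(h2 z hs3).differentiableAt ((isOpen_US s).mem_nhds hs3), ?_⟩
  have h3 : (fun m : ℕ => deriv (fun z => dC t b m * M (m + 1) z) z) = fun m : ℕ =>
      -((m : ℂ) + 1) * dC t b m * M (m + 2) z := by
    funext m
    have h4 := (h.deriv (m + 1) (by omega) z (US_mono hs0.le hs3)).const_mul (dC t b m)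
    rw [h4.deriv]
    push_cast
    ring
  rw [h3] at h1
  exact h1

theorem omF_eq (h : IsLat κ E γ M G) (ht : 0 < t) (ht8 : t < 1 / 4)
    (hb : Summable (fun n : ℕ => 2 ^ n * ‖b n‖)) (β : ℝ) {z : ℂ} (hz : z ∈ US (t / 2)) :
    omF M t β b z = β * M 1 z / 2 + deriv (AS M t b) z := by
  have h1 := (hasSum_deriv_AS h ht ht8 hb hz).2.tsum_eq
  rw [omF, ← h1, sub_eq_add_neg, ← tsum_neg]
  congr 2
  funext m
  rw [dC]; ring

theorem psiF_eq (h : IsLat κ E γ M G) (ht : 0 < t) (ht8 : t < 1 / 4)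
    (hb : Summable (fun n : ℕ => 2 ^ n * ‖b n‖)) (β : ℝ) {z : ℂ} (hz : z ∈ US (t / 2)) :
    psiF M G t β b z = β * G z + AS M t b z + conj (AS M t b (-z)) := by
  have h1 := hasSum_AS h ht ht8 hb hz
  have h2 := (hasSum_AS h ht ht8 hb (US_neg hz))
  have h3 : HasSum (fun m => conj (dC t b m * M (m + 1) (-z))) (conj (AS M t b (-z))) :=
    Complex.hasSum_conj'.2 (by simpa using h2) |> fun h => by simpa using h
  have h4 := (h1.add h3).tsum_eq
  rw [psiF, add_assoc, ← h4]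
  congr 2
  funext m
  rw [dC]
  simp only [map_mul, map_pow, Complex.conj_ofReal, Complex.conj_conj, map_neg, map_one]
  ring

theorem AS_bloch (h : IsLat κ E γ M G) (ht : 0 < t) {z : ℂ} (hz : z ∈ US (t / 2)) (p : ℤ × ℤ) :
    AS M t b (z + lp p) = chi κ p * AS M t b z := by
  rw [AS, AS, ← tsum_mul_left]
  refine tsum_congr fun m => ?_
  rw [h.bloch (m + 1) (by omega) z (US_mono (by positivity) hz) p]
  ring

theorem differentiableOn_omF (h : IsLat κ E γ M G) (ht : 0 < t) (ht8 : t < 1 / 4)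
    (hb : Summable (fun n : ℕ => 2 ^ n * ‖b n‖)) (β : ℝ) :
    DifferentiableOn ℂ (omF M t β b) (US (t / 2)) := by
  have h1 : DifferentiableOn ℂ (AS M t b) (US (t / 2)) := fun z hz =>
    (hasSum_deriv_AS h ht ht8 hb hz).1.differentiableWithinAt
  have h2 := h1.deriv (isOpen_US (t / 2))
  have h3 : DifferentiableOn ℂ (fun z => β * M 1 z / 2 + deriv (AS M t b) z) (US (t / 2)) :=
    ((((M_diff h le_rfl).mono (US_mono (by positivity))).const_mul _).div_const _).add h2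
  exact h3.congr fun z hz => omF_eq h ht ht8 hb β hz

theorem isBlochHarm_psiF (h : IsLat κ E γ M G) (ht : 0 < t) (ht8 : t < 1 / 4)
    (hb : Summable (fun n : ℕ => 2 ^ n * ‖b n‖)) (β : ℝ) :
    IsBlochHarm κ (t / 2) (psiF M G t β b) (omF M t β b) := by
  refine ⟨differentiableOn_omF h ht ht8 hb β, ?_, ?_, ?_⟩
  · intro z hz
    have hz0 : z ∈ US 0 := US_mono (by positivity) hz
    have hG := (h.G_harm.deriv z hz0).const_mul (β : ℂ)
    have hA : HasFDerivAt (AS M t b) (dpair (deriv (AS M t b) z) 0) z := by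
      have h1 := (hasSum_deriv_AS h ht ht8 hb hz).1.hasDerivAt.hasFDerivAt.restrictScalars ℝ
      refine h1.congr_fderiv ?_
      ext w
      simp [dpair_apply, mul_comm]
    have hA' : HasFDerivAt (fun w => conj (AS M t b (-w)))
        (dpair 0 (-(conj (deriv (AS M t b) (-z))))) z := by
      have h1 := (hasSum_deriv_AS h ht ht8 hb (US_neg hz)).1.hasDerivAt.hasFDerivAt.restrictScalars ℝ
      have h2 : HasFDerivAt (fun w : ℂ => -w) (-(ContinuousLinearMap.id ℝ ℂ)) z :=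
        (hasFDerivAt_id z).neg
      have h3 := h1.comp z h2
      have h4 := (Complex.conjCLE : ℂ →L[ℝ] ℂ).hasFDerivAt (x := AS M t b (-z)) |>.comp z h3
      refine HasFDerivAt.congr_fderiv (f := fun w => conj (AS M t b (-w))) h4 ?_
      ext w
      simp [dpair_apply, mul_comm]
    have hsum := (hG.add hA).add hA'
    have heq : (psiF M G t β b) =ᶠ[nhds z]
        (fun w => β * G w + AS M t b w + conj (AS M t b (-w))) := by
      filter_upwards [(isOpen_US (t / 2)).mem_nhds hz] with w hw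
      exact psiF_eq h ht ht8 hb β hw
    refine (HasFDerivAt.congr_of_eventuallyEq hsum heq).congr_fderiv ?_
    rw [omF_eq h ht ht8 hb β hz, omF_eq h ht ht8 hb β (US_neg hz)]
    ext w <;> simp [dpair_apply] <;> ring
  · intro z hz p
    have hz0 : z ∈ US 0 := US_mono (by positivity) hz
    rw [psiF_eq h ht ht8 hb β hz, psiF_eq h ht ht8 hb β (US_add hz p), h.G_harm.bloch z hz0 p,
      AS_bloch h ht hz p, neg_add, ← lp_neg, AS_bloch h ht (US_neg hz) (-p), map_mul, chi_neg,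
      Complex.conj_conj]
    ring
  · intro z hz
    have hz0 : z ∈ US 0 := US_mono (by positivity) hz
    rw [psiF_eq h ht ht8 hb β hz, psiF_eq h ht ht8 hb β (US_neg hz), h.G_harm.symm z hz0, neg_neg]
    simp only [map_add, map_mul, Complex.conj_ofReal, Complex.conj_conj]
    ring

end

end FB.P1
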